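import Pool.Agent.H15.SC.TargetsX

/-!
Modules XA1, XA2, XB (MP_f2954d_ag, block B5, helper15)
-/

namespace Pool.Agent.H27.SCX

open SC

/-- XA1 -/
theorem xA1 : T_XA1 := by
  intro K _ _ N n w hw i hi
  apply IsFractionRing.of_field
  intro z
  have hz : z ∈ IntermediateField.adjoin ℂ (chart w i : Set K) := by
    rw [hw.functionField i hi]
    exact IntermediateField.mem_top
  rw [IntermediateField.mem_adjoin_iff_div] at hz
  obtain ⟨r, hr, s, hs, h⟩ := hz
  rw [Algebra.adjoin_eq] at hr hs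
  exact ⟨⟨r, hr⟩, ⟨s, hs⟩, h⟩

/-- XA2 -/
theorem xA2 : T_XA2 := by
  intro K _ _ N w i i' hi hi' a ha
  have hgen : ∀ j, w j / w i ∈ chart w i := fun j => Algebra.subset_adjoin ⟨j, rfl⟩
  unfold chart at ha
  induction ha using Algebra.adjoin_induction with
  | mem x hx =>
    obtain ⟨j, rfl⟩ := hx
    refine ⟨1, fun e he => ?_⟩
    obtain ⟨f, rfl⟩ : ∃ f, e = f + 1 := ⟨e - 1, by omega⟩
    have : (w j / w i') * (w i' / w i) ^ (f + 1) = (w j / w i) * (w i' / w i) ^ f := by
      rw [pow_succ]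
      field_simp
    rw [this]
    exact (chart w i).mul_mem (hgen j) ((chart w i).pow_mem (hgen i') f)
  | algebraMap r =>
    exact ⟨0, fun e _ => (chart w i).mul_mem ((chart w i).algebraMap_mem r)
      ((chart w i).pow_mem (hgen i') e)⟩
  | add x y hx hy h1 h2 =>
    obtain ⟨d1, hd1⟩ := h1
    obtain ⟨d2, hd2⟩ := h2
    refine ⟨max d1 d2, fun e he => ?_⟩
    rw [add_mul]
    exact (chart w i).add_mem (hd1 e (le_trans (le_max_left _ _) he))
      (hd2 e (le_trans (le_max_right _ _) he))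
  | mul x y hx hy h1 h2 =>
    obtain ⟨d1, hd1⟩ := h1
    obtain ⟨d2, hd2⟩ := h2
    refine ⟨d1 + d2, fun e he => ?_⟩
    obtain ⟨f, rfl⟩ : ∃ f, e = d1 + f := ⟨e - d1, by omega⟩
    have : x * y * (w i' / w i) ^ (d1 + f) = (x * (w i' / w i) ^ d1) * (y * (w i' / w i) ^ f) := by
      rw [pow_add]; ring
    rw [this]
    exact (chart w i).mul_mem (hd1 d1 le_rfl) (hd2 f (by omega))

lemma ord_div {k K : Type} [Field k] [Field K] [Algebra k K] (v : DV k K) (a b : K) (ha : a ≠ 0)
    (hb : b ≠ 0) : v.ord (a / b) = v.ord a - v.ord b := by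
  rw [div_eq_mul_inv, v.ord_mul _ _ ha (inv_ne_zero hb), v.ord_inv]
  ring

/-- XB -/
theorem xB : T_XB := by
  intro K _ _ N w i p v hp
  constructor
  · rintro ⟨h1, h2⟩ x ⟨a, b, hb, rfl⟩
    by_cases ha0 : (a : K) = 0
    · rw [ha0, zero_div, v.1.ord_zero]
    · have hb0 : (b : K) ≠ 0 := by
        intro h
        apply hb
        have : b = 0 := by exact_mod_cast h
        rw [this]
        exact p.zero_mem
      rw [ord_div v.1 _ _ ha0 hb0]
      have h3 := h1 a a.2
      have h4 : ¬ (0 < v.1.ord (b : K)) := fun h => hb (h2 b h)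
      omega
  · intro h
    have h1 : (1 : chart w i) ∉ p := fun h1 => hp.ne_top ((Ideal.eq_top_iff_one p).mpr h1)
    constructor
    · intro a ha
      apply h
      exact ⟨⟨a, ha⟩, 1, h1, by simp⟩
    · intro a ha
      by_contra hap
      have ha0 : (a : K) ≠ 0 := by
        intro h2
        rw [h2, v.1.ord_zero] at ha
        exact lt_irrefl _ ha
      have h2 := h (1 / (a : K)) ⟨1, a, hap, by simp⟩
      rw [ord_div v.1 _ _ one_ne_zero ha0, v.1.ord_one] at h2
      omega

end Pool.Agent.H27.SCX
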