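import Pool.Agent.H15.SC.Ms

/-! Modules NEF, NDI, KRN, REP of block B5 (MP_f2954d_ag), helper27. -/

namespace Pool.Agent.H27.SCX

open SC SCB

lemma toR_nsmul {K : Type} [Field K] [Algebra ℂ K] {N : ℕ} {w : Fin (N + 1) → K}
    (m : ℕ) (A : DivZ w) : toR (m • A) = (m : ℝ) • toR A := by
  ext v
  simp [toR]

theorem NEF : T_XQ → T_NEF := by
  intro hXQ K _ _ N n w i₀ H₀ μ hX hH L hL g hg ε hε
  obtain ⟨-, h2, h3, -⟩ := hXQ K N n w hX i₀ H₀ hH
  obtain ⟨A, hA, q, hq, rfl⟩ := hg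
  have hq' : (0 : ℝ) < q := by exact_mod_cast hq
  obtain ⟨r, B, c, hBc, hnt⟩ := hL A (h2 A hA) (ε * q) (mul_pos hε hq')
  have hm : ∀ i, ∃ m : ℕ, 1 ≤ m ∧ VAmp H₀ (m • B i) := by
    intro i
    obtain ⟨m₀, hm₀⟩ := h3 (B i) (hBc i).1 0
    refine ⟨max m₀ 1, le_max_right _ _, ?_⟩
    have := hm₀ (max m₀ 1) (le_max_left _ _)
    rwa [zero_add] at this
  choose m hm1 hm2 using hm
  refine ⟨r, fun i => (NTsub μ).mkQ (toR (B i)), c, fun i => ⟨?_, (hBc i).2⟩, ?_⟩
  · refine ⟨m i • B i, hm2 i, 1 / (m i : ℚ), ?_, ?_⟩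
    · have : (0 : ℚ) < m i := by exact_mod_cast hm1 i
      positivity
    · have : (m i : ℝ) ≠ 0 := by
        have := hm1 i
        positivity
      rw [toR_nsmul, map_smul, smul_smul]
      push_cast
      rw [one_div, inv_mul_cancel₀ this, one_smul]
  · have h0 : (NTsub μ).mkQ (L + (ε * q) • toR A - ∑ i, c i • toR (B i)) = 0 := by
      rw [Submodule.mkQ_apply, Submodule.Quotient.mk_eq_zero]
      exact hnt
    rw [map_sub, map_add, map_smul, map_sum, sub_eq_zero] at h0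
    rw [smul_smul, h0]
    exact Finset.sum_congr rfl fun i _ => by rw [map_smul]

theorem NDI : T_GL → T_IN → T_NDI := by
  classical
  intro hGL hIN K _ _ N n w μ hμ L k hk
  obtain ⟨hkn, E, hE, hne⟩ := hk
  obtain ⟨h1, -, -, -⟩ := hIN K N n w μ hμ
  obtain ⟨g1, -, -⟩ := hGL (DivR w) n μ hμ.1
  have hms : ofMulti μ (ms E) = μ E := g1 (Fin n) (Equiv.refl _) E
  obtain ⟨S, hS⟩ : ∃ S : Finset (Fin n), S = Finset.univ.filter (fun i : Fin n => i.val < k) :=
    ⟨_, rfl⟩
  have hcard : S.card = k := by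
    rw [hS, Fin.card_filter_val_lt]
    omega
  have hsplit : ms E = Multiset.replicate k L + mss Sᶜ E := by
    rw [ms_compl S E]
    congr 1
    rw [mss_congr (L' := fun _ => L) (by
      intro i hi
      rw [hS] at hi
      exact hE i (by simpa using hi))]
    simp [mss, hcard]
  refine ⟨(mss Sᶜ E).map (NTsub μ).mkQ, ?_, ?_⟩
  · rw [Multiset.card_map, card_mss, Finset.card_compl, hcard, Fintype.card_fin]
    omega
  · have h := h1 (ms E) (by rw [card_ms, Fintype.card_fin])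
    rw [hsplit, Multiset.map_add, Multiset.map_replicate, ← hsplit, hms] at h
    rw [h]
    exact hne

lemma ms_append {N : Type} {m : ℕ} (L : Fin m → N) (f : Fin 2 → N) :
    ms (Fin.append L f) = f 0 ::ₘ f 1 ::ₘ ms L := by
  rw [← ms_equiv (finSumFinEquiv (m := m) (n := 2)) (Fin.append L f)]
  apply ms_elim2
  · intro i
    simp
  · intro i
    simp

theorem KRN : T_GL → T_IN → T_KRN := by
  intro hGL hIN K _ _ N m w μ hμ L η
  obtain ⟨h1, -, -, -⟩ := hIN K N (m + 2) w μ hμ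
  obtain ⟨g1, -, -⟩ := hGL (DivR w) (m + 2) μ hμ.1
  have key : ∀ γ : DivR w, μ (Fin.append L ![η, γ]) =
      INS μ ((NTsub μ).mkQ η ::ₘ (NTsub μ).mkQ γ ::ₘ ms fun i => (NTsub μ).mkQ (L i)) := by
    intro γ
    have hms : ofMulti μ (ms (Fin.append L ![η, γ])) = μ (Fin.append L ![η, γ]) :=
      g1 (Fin (m + 2)) (Equiv.refl _) _
    rw [ms_append] at hms
    have h := h1 (η ::ₘ γ ::ₘ ms L) (by simp [card_ms])
    simp only [Matrix.cons_val_zero, Matrix.cons_val_one] at hms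
    rw [← hms, ← h, Multiset.map_cons, Multiset.map_cons]
    congr 3
    unfold ms
    rw [Multiset.map_map]
    rfl
  constructor
  · intro h y
    obtain ⟨γ, rfl⟩ := (NTsub μ).mkQ_surjective y
    rw [← key]
    exact h γ
  · intro h γ
    rw [key]
    exact h _

theorem REP : T_REP := by
  intro K _ _ N n w H₀ μ s hs
  have h : ∀ i : Fin s.card, ∃ (D : DivZ w) (q : ℚ), VAmp H₀ D ∧ 0 < q ∧
      s.toList.get (i.cast (by simp)) = (q : ℝ) • (NTsub μ).mkQ (toR D) := by
    intro i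
    have hmem : s.toList.get (i.cast (by simp)) ∈ s := by
      rw [← Multiset.mem_toList]
      exact List.get_mem _ _
    obtain ⟨A, hA, q, hq, e⟩ := hs _ hmem
    exact ⟨A, q, hA, hq, e⟩
  choose D q h1 h2 h3 using h
  refine ⟨D, q, fun i => ⟨h1 i, h2 i⟩, ?_⟩
  have e1 : (ms fun i : Fin s.card => (q i : ℝ) • (NTsub μ).mkQ (toR (D i))) =
      ms fun i : Fin s.card => s.toList.get (i.cast (by simp)) := by
    congr 1
    funext i
    rw [h3]
  rw [e1]
  have e2 := ms_equiv (finCongr (show s.card = s.toList.length by simp))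
    (fun j => s.toList.get j)
  have e3 : ms (fun j => s.toList.get j) = s := by
    unfold ms
    rw [Fin.univ_val_map, List.ofFn_get, Multiset.coe_toList]
  exact e3.symm.trans e2.symm

end Pool.Agent.H27.SCX
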